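import Pool.Statements.S01797
import Pool.Agent.Helper68.SG.PartB
import Pool.Agent.Helper68.SG.Main
import Pool.Agent.Helper78.SG.PartC
import Pool.Agent.Helper18.SG.PartD

set_option autoImplicit false
open Pool Pool.MP_6af7b0_al

namespace Pool.Agent.S01797

/-- For any finite set of semigroup identities: if the variety they define is non-periodic and contains a periodic semigroup that is not locally finite, then it contains a finitely generated semigroup whose growth function is at least c^n for some c>1. -/
theorem result :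
    ∀ E : List (FreeSemigroup ℕ × FreeSemigroup ℕ),
      (∃ (S : Type) (_ : Semigroup S),
          (∀ p ∈ E, ∀ f : FreeSemigroup ℕ →ₙ* S, f p.1 = f p.2) ∧
          ∃ a : S, (Subsemigroup.closure ({a} : Set S) : Set S).Infinite) →
      (∃ (S : Type) (_ : Semigroup S),
          (∀ p ∈ E, ∀ f : FreeSemigroup ℕ →ₙ* S, f p.1 = f p.2) ∧
          (∀ a : S, (Subsemigroup.closure ({a} : Set S) : Set S).Finite) ∧
          ∃ A : Set S, A.Finite ∧ (Subsemigroup.closure A : Set S).Infinite) →
      ∃ (T : Type) (_ : Semigroup T),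
        (∀ p ∈ E, ∀ f : FreeSemigroup ℕ →ₙ* T, f p.1 = f p.2) ∧
        ∃ (k : ℕ) (g : Fin k → T),
          Subsemigroup.closure (Set.range g) = ⊤ ∧
          ∃ c : ℝ, 1 < c ∧ ∃ N : ℕ, ∀ n ≥ N,
            c ^ n ≤ (Nat.card {x : T | ∃ w : FreeSemigroup (Fin k),
              w.tail.length < n ∧ FreeSemigroup.lift g w = x} : ℝ) := by
  intro E h1 h2
  exact Pool.Agent.Helper68.SGMain.main_of @Pool.Agent.Helper68.SG.partB
    Pool.Agent.Helper78.SG.partC Pool.Agent.Helper18.SG.partD E h1 h2

end Pool.Agent.S01797
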