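import Pool.Statements.S03843
import Pool.Agent.H71UF.Fin

set_option autoImplicit false
open Pool Pool.MP_10bde7_an

namespace Pool.Agent.S03843

/-- Every injective holomorphic zero-free function f on the unit disc equals B·F² there, with B holomorphic, bounded and with bounded reciprocal, and F holomorphic with positive real part. -/
theorem result :
    ∀ f : ℂ → ℂ, DifferentiableOn ℂ f (Metric.ball (0:ℂ) 1) →
      Set.InjOn f (Metric.ball (0:ℂ) 1) →
      (∀ z ∈ Metric.ball (0:ℂ) 1, f z ≠ 0) →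
      ∃ B F : ℂ → ℂ,
        DifferentiableOn ℂ B (Metric.ball (0:ℂ) 1) ∧
        DifferentiableOn ℂ F (Metric.ball (0:ℂ) 1) ∧
        (∃ M : ℝ, ∀ z ∈ Metric.ball (0:ℂ) 1, ‖B z‖ ≤ M) ∧
        (∃ M : ℝ, ∀ z ∈ Metric.ball (0:ℂ) 1, B z ≠ 0 ∧ ‖(B z)⁻¹‖ ≤ M) ∧
        (∀ z ∈ Metric.ball (0:ℂ) 1, 0 < (F z).re) ∧
        (∀ z ∈ Metric.ball (0:ℂ) 1, f z = B z * F z ^ 2) := by
  exact fun f hf hinj h0 => Pool.Agent.H71UF.factor f hf hinj h0

end Pool.Agent.S03843
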