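import Pool.Statements.S08537
import Pool.Agent.H25.Bond.Surv
import Pool.Agent.H25.Bond.Draw
import Pool.Agent.H25.Bond.Dom
import Pool.Agent.H25.Bond.Fin

set_option autoImplicit false
open Pool Pool.MP_484915_co

namespace Pool.Agent.S08537

/-- There is a finite graph, drawable in the plane without crossings, in which removing some set of at most 8 edges raises the domination number, but removing any set of at most 6 edges never does, so its bondage number is 7 or 8. -/
theorem result :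
    ∃ (V : Type) (_ : Fintype V) (G : SimpleGraph V),
      (∃ (p : V → ℝ × ℝ) (γ : ∀ u v : V, Path (p u) (p v)),
        Function.Injective p ∧
        (∀ u v : V, G.Adj u v → Function.Injective (⇑(γ u v))) ∧
        (∀ u v : V, G.Adj u v → ∀ t : unitInterval, t ≠ 0 → t ≠ 1 →
          ∀ w : V, γ u v t ≠ p w) ∧
        (∀ u v x y : V, G.Adj u v → G.Adj x y → s(u, v) ≠ s(x, y) →
          ∀ a b : unitInterval, a ≠ 0 → a ≠ 1 → b ≠ 0 → b ≠ 1 →
            γ u v a ≠ γ x y b)) ∧
      (∃ E : Finset (Sym2 V), (↑E : Set (Sym2 V)) ⊆ G.edgeSet ∧ E.card ≤ 8 ∧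
        sInf {n : ℕ | ∃ D : Finset V, D.card = n ∧
            ∀ v : V, v ∈ D ∨ ∃ u ∈ D, G.Adj u v} <
          sInf {n : ℕ | ∃ D : Finset V, D.card = n ∧
            ∀ v : V, v ∈ D ∨ ∃ u ∈ D, (G.deleteEdges (↑E : Set (Sym2 V))).Adj u v}) ∧
      (∀ E : Finset (Sym2 V), (↑E : Set (Sym2 V)) ⊆ G.edgeSet → E.card ≤ 6 →
        ¬ (sInf {n : ℕ | ∃ D : Finset V, D.card = n ∧
            ∀ v : V, v ∈ D ∨ ∃ u ∈ D, G.Adj u v} <
          sInf {n : ℕ | ∃ D : Finset V, D.card = n ∧
            ∀ v : V, v ∈ D ∨ ∃ u ∈ D, (G.deleteEdges (↑E : Set (Sym2 V))).Adj u v})) := by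
  exact Pool.Agent.H25.BondF.fin Pool.Agent.H25.BondP.draw Pool.Agent.H25.BondD.dom5
    Pool.Agent.H25.BondD.dom7 Pool.Agent.H25.Bond.surv

end Pool.Agent.S08537
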